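import Pool.Agent.H242.GX.Stm

/-! GX-PSI: normal coordinates of an oval. -/

open Set Filter Topology
open scoped ContDiff
open Pool.Agent.H242.GX

namespace Pool.Agent.H935.GX

theorem ip_Psi (p : ℝ → ℝ) (φ y : ℝ) : ip (Psi p φ y) (nu φ) = p φ + y := by
  simp only [ip, Psi, gam, nu, e, Complex.add_re, Complex.add_im, Complex.real_smul,
    Complex.mul_re, Complex.mul_im, Complex.ofReal_re, Complex.ofReal_im]
  have h := Real.sin_sq_add_cos_sq φ
  have h2 : Real.cos φ ^ 2 = 1 - Real.sin φ ^ 2 := by linarith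
  ring_nf
  rw [h2]
  ring

/-- The radius of curvature is bounded below. -/
theorem rho_min {p : ℝ → ℝ} (hp : Supp p) :
    ∃ m : ℝ, 0 < m ∧ ∀ α, m ≤ p α + deriv (deriv p) α := by
  have hper : Function.Periodic p (2 * Real.pi) := hp.per
  have hper1 : Function.Periodic (deriv p) (2 * Real.pi) := by
    intro x
    have h : (fun u => p (u + 2 * Real.pi)) = p := funext hp.per
    rw [← deriv_comp_add_const, h]
  have hper2 : Function.Periodic (deriv (deriv p)) (2 * Real.pi) := by
    intro x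
    have h : (fun u => deriv p (u + 2 * Real.pi)) = deriv p := funext hper1
    rw [← deriv_comp_add_const, h]
  have hc1 : ContDiff ℝ ∞ (deriv p) := by
    have := (contDiff_infty_iff_deriv.1 hp.smooth).2
    exact this
  have hc2 : ContDiff ℝ ∞ (deriv (deriv p)) := (contDiff_infty_iff_deriv.1 hc1).2
  have hcont : Continuous fun α => p α + deriv (deriv p) α :=
    hp.smooth.continuous.add hc2.continuous
  obtain ⟨x, -, hx⟩ := (isCompact_Icc (a := (0:ℝ)) (b := 2 * Real.pi)).exists_isMinOn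
    ⟨0, by constructor <;> [exact le_rfl; positivity]⟩ hcont.continuousOn
  refine ⟨p x + deriv (deriv p) x, hp.pos x, fun α => ?_⟩
  have hP : Function.Periodic (fun α => p α + deriv (deriv p) α) (2 * Real.pi) := by
    intro u
    change p (u + 2 * Real.pi) + deriv (deriv p) (u + 2 * Real.pi) = _
    rw [hper u, hper2 u]
  obtain ⟨y, hy, hy2⟩ := hP.exists_mem_Ico₀ Real.two_pi_pos α
  rw [hy2]
  exact hx (Ico_subset_Icc_self hy)

theorem gx_PSI (hKEY : S_KEY) (hMAX : S_MAX) (hBODY : S_BODY) : S_PSI := by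
  intro p hp
  obtain ⟨m, hm, hmin⟩ := rho_min hp
  have hle : ∀ φ φ' y y' : ℝ, -m < y → Psi p φ y = Psi p φ' y' → y' ≤ y := by
    intro φ φ' y y' hy h
    have h1 := (hKEY p hp φ y (fun α => by linarith [hmin α]) φ').1
    rw [h, ip_Psi] at h1
    linarith
  refine ⟨m, hm, ?_, ?_, ?_, ?_⟩
  · intro φ φ' y y' hy hy' h
    have e1 : y = y' := le_antisymm (hle φ' φ y' y hy' h.symm) (hle φ φ' y y' hy h)
    refine ⟨e1, ?_⟩
    refine (hKEY p hp φ y (fun α => by linarith [hmin α]) φ').2 ?_
    rw [h, ip_Psi, e1]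
  · intro φ y hy h
    have h1 := h φ
    rw [ip_Psi] at h1
    linarith
  · intro z hz
    rw [(hBODY p hp).2.2.2] at hz
    simp only [mem_ofPred_eq, not_forall, not_lt] at hz
    obtain ⟨α, hα⟩ := hz
    obtain ⟨φ, y, h1, h2⟩ := hMAX p hp z
    exact ⟨φ, y, by linarith [h2 α], h1⟩
  · intro φ y hy
    have := hmin φ
    exact (by linarith : 0 < p φ + deriv (deriv p) φ + y).ne'

end Pool.Agent.H935.GX
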